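import Pool.Agent.H72.LD.Cone4
import Pool.Agent.H87.LD.Hil

/-!
# The linearity defect of Frobenius pushforwards and the Hilbert function

`q = p^e`, `z_1, …, z_t` in `m` a regular sequence, `t ≥ 1`, `m^(s+1) ⊆ (z_1, …, z_t) m^s`, `m` generated by
`n` elements, `N = s + (t - 1) q`. If `n length R/m^(N+j-q) + length R/m^N < length R/m^(N+j)` for some `j`, then
`ld k ≤ ld φ^e R + t`. For `t = 2` and `j = 1` this says that `m^(s+q)` needs more than `n length R/m^(s+1)` generators.
-/

set_option autoImplicit false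

open IsLocalRing Pool.Agent.H72.LD

theorem Pool.Agent.Results.MP_2ee108_al.DimensionTwo.result
    (R : Type) [CommRing R] [IsLocalRing R] [IsNoetherianRing R]
    (p e : ℕ) (hp : p.Prime) (hc : CharP R p)
    (M : Type) [AddCommGroup M] [Module R M] (hM : IsPushforward p e R M)
    (F : MinRes R M) (l : ℕ) (hl : LdLE F l)
    (L : List R) (hL : ∀ z ∈ L, z ∈ maximalIdeal R)
    (hreg : RingTheory.Sequence.IsWeaklyRegular R L) (hL0 : L ≠ [])
    (X : List R) (hX : Ideal.ofList X = maximalIdeal R)
    (s j : ℕ) (hs : maximalIdeal R ^ (s + 1) ≤ Ideal.ofList L * maximalIdeal R ^ s)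
    (hlen : X.length * Module.length R (R ⧸ maximalIdeal R ^ (s + (L.length - 1) * p ^ e + j - p ^ e)) +
        Module.length R (R ⧸ maximalIdeal R ^ (s + (L.length - 1) * p ^ e)) <
      Module.length R (R ⧸ maximalIdeal R ^ (s + (L.length - 1) * p ^ e + j)))
    (G : MinRes R (ResidueField R)) : LdLE G (l + L.length) := by
  obtain ⟨a, ha, hna⟩ := Pool.Agent.H87.LD.Hil.elt p e hp hc L X hX hL0 s j hs hlen
  exact Cone.pushforward_case p e hp hM L hL hreg a ha hna F l hl G
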