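import Pool.Agent.H72.LD.Final

/-!
# Frobenius pushforwards of finite linearity defect over local rings without quadratic relations

Over a Noetherian local ring without quadratic relations a module of finite linearity defect has
finite projective dimension; if a Frobenius pushforward has finite linearity defect, the ring is
regular and the residue field has finite linearity defect.
-/

set_option autoImplicit false

open IsLocalRing Pool.Agent.H72.LD

theorem Pool.Agent.Results.MP_2ee108_al.NoQuadrics.result
    (R : Type) [CommRing R] [IsLocalRing R] [IsNoetherianRing R]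
    (h : (maximalIdeal R ^ 2).spanFinrank =
      (maximalIdeal R).spanFinrank * ((maximalIdeal R).spanFinrank + 1) / 2) :
    (∀ (M : Type) [AddCommGroup M] [Module R M] (F : MinRes R M) (t : ℕ), LdLE F t →
      ∀ i, t + (maximalIdeal R).spanFinrank < i → F.rank i = 0) ∧
    ∀ p e : ℕ, p.Prime → CharP R p → 1 ≤ e →
      ∀ (M : Type) [AddCommGroup M] [Module R M], IsPushforward p e R M →
      ∀ (F : MinRes R M) (t : ℕ), LdLE F t →
        IsRegularLocalRing R ∧
          ∀ G : MinRes R (ResidueField R), LdLE G (maximalIdeal R).spanFinrank := by
  refine ⟨fun M _ _ F t ht i hi => rank_zero h F t ht i hi, ?_⟩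
  intro p e hp hc he M _ _ hM F t ht
  exact ⟨regular h p e hp he hM F t ht, fun G => residue_ld h p e hp he hM F t ht G⟩
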