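import Pool.Agent.H72.LD.Cone4
import Pool.Agent.H87.LD.Typ

/-!
# The linearity defect of Frobenius pushforwards and regular sequences

`q = p^e`, `z_1, …, z_t` in `m` a regular sequence. If an element outside `m^[q]` is multiplied by
`m^[q]` into `(z_1^q, …, z_t^q)`, then `ld k ≤ ld φ^e R + t`. So this holds for `t = 1` if
`m^(s+1) ⊆ z m^s` with `s < p^e`, and in every dimension if `A = R/(z_1^q, …, z_t^q)` has finite length,
its socle has length at most `r` and `r length A < (r + 1) length R/m^[q]`.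
-/

set_option autoImplicit false

open IsLocalRing Pool.Agent.H72.LD

theorem Pool.Agent.Results.MP_2ee108_al.RegularSequences.result
    (R : Type) [CommRing R] [IsLocalRing R] [IsNoetherianRing R]
    (p e : ℕ) (hp : p.Prime) (_hc : CharP R p)
    (M : Type) [AddCommGroup M] [Module R M] (hM : IsPushforward p e R M)
    (F : MinRes R M) (n : ℕ) (hn : LdLE F n)
    (L : List R) (hL : ∀ z ∈ L, z ∈ maximalIdeal R)
    (hreg : RingTheory.Sequence.IsWeaklyRegular R L)
    (h : (∃ a : R, (∀ r ∈ maximalIdeal R, r ^ p ^ e * a ∈ Ideal.ofList (L.map (· ^ p ^ e))) ∧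
        a ∉ Ideal.span ((fun r : R => r ^ p ^ e) '' (maximalIdeal R : Set R))) ∨
      (∃ (z : R) (s : ℕ), L = [z] ∧
        maximalIdeal R ^ (s + 1) ≤ Ideal.span {z} * maximalIdeal R ^ s ∧ s < p ^ e) ∨
      ∃ r : ℕ, IsFiniteLength R (R ⧸ Ideal.ofList (L.map (· ^ p ^ e))) ∧
        (∀ N : Submodule R (R ⧸ Ideal.ofList (L.map (· ^ p ^ e))),
          (∀ s ∈ maximalIdeal R, ∀ x ∈ N, s • x = 0) → Module.length R N ≤ r) ∧
        (r : ℕ∞) * Module.length R (R ⧸ Ideal.ofList (L.map (· ^ p ^ e))) <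
          (r + 1) * Module.length R
            (R ⧸ Ideal.span ((fun r : R => r ^ p ^ e) '' (maximalIdeal R : Set R))))
    (G : MinRes R (ResidueField R)) : LdLE G (n + L.length) := by
  rcases h with ⟨a, ha, hna⟩ | ⟨z, s, rfl, hs, hsq⟩ | ⟨r, hfin, hsoc, hlen⟩
  · exact Cone.pushforward_case p e hp hM L hL hreg a ha hna F n hn G
  · obtain ⟨a, ha, hna⟩ := Cone.exists_red p e z (hL z (by simp)) hreg s hs hsq
    exact Cone.pushforward_case p e hp hM [z] hL hreg a ha hna F n hn G
  · obtain ⟨a, ha, hna⟩ := Pool.Agent.H87.LD.Typ.elt p e L hL r hfin hsoc hlen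
    exact Cone.pushforward_case p e hp hM L hL hreg a ha hna F n hn G
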