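import Pool.Agent.H87.LD.Sum
import Pool.Agent.H87.LD.Exi

/-!
# MP_2ee108_al: the residue field as a direct summand of the Frobenius pushforward

Definitions in `Pool/Agent/H87/LD/Def.lean` (`MinRes`, `fil`, `MinRes.LinExact`, `LdLE`, `FrobMod`) and `frobPow` in
`Pool/Agent/H87/LD/Sum.lean`. There: `frob_retract` and `retract_elt` (condition (1) below holds if and only if the residue
field is a direct summand of `FrobMod R p e`). `retract` in `Pool/Agent/H87/LD/Cmp.lean`: `LdLE` does not depend on the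
resolution.
-/

set_option autoImplicit false

namespace Pool.Agent.Results.MP_2ee108_al.SummandCriterion

open IsLocalRing Pool.Agent.H87.LD

universe u

/-- Let `R` be a Noetherian local ring of prime characteristic `p`, `𝔪` its maximal ideal, `k = R / 𝔪`, `q = p ^ e`.
Then `ld_R k ≤ ld_R (FrobMod R p e)` if one of the following holds:
(1) some `a ∉ 𝔪^[q]` has `r ^ q a = 0` for all `r ∈ 𝔪`;
(2) `𝔪 ^ (q + j) = 0` and `𝔪 ^ j` is not contained in `𝔪^[q]`, for some `j`;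
(3) `𝔪 ^ (2 q - 1) = 0`;
(4) some `b ≠ 0` has `𝔪 b = 0` and, for some `s ≤ q`, no nonzero element of `𝔪 ^ s` is annihilated by a power of `𝔪`
(depth `0`, `H^0_𝔪(R) ∩ 𝔪 ^ s = 0`). -/
theorem result (R : Type u) [CommRing R] [IsLocalRing R] [IsNoetherianRing R] (p : ℕ) [Fact p.Prime] [CharP R p] (e : ℕ)
    (h : (∃ a : R, (∀ r ∈ maximalIdeal R, r ^ p ^ e * a = 0) ∧ a ∉ frobPow R (p ^ e)) ∨
      (∃ j, maximalIdeal R ^ (p ^ e + j) = ⊥ ∧ ¬ maximalIdeal R ^ j ≤ frobPow R (p ^ e)) ∨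
      maximalIdeal R ^ (2 * p ^ e - 1) = ⊥ ∨
      ∃ s, s ≤ p ^ e ∧ (∀ a ∈ maximalIdeal R ^ s, (∃ n, ∀ x ∈ maximalIdeal R ^ n, x * a = 0) → a = 0) ∧
        ∃ b : R, b ≠ 0 ∧ ∀ x ∈ maximalIdeal R, x * b = 0)
    (n : ℕ) (hn : LdLE R (FrobMod R p e) n) : LdLE R (R ⧸ maximalIdeal R) n := by
  have hq : 1 ≤ p ^ e := Nat.one_le_iff_ne_zero.2 (pow_ne_zero _ (Fact.out : p.Prime).ne_zero)
  obtain ⟨a, h1, h2⟩ : ∃ a : R, (∀ r ∈ maximalIdeal R, r ^ p ^ e * a = 0) ∧ a ∉ frobPow R (p ^ e) := by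
    rcases h with h | ⟨j, hj, hnot⟩ | hm | ⟨s, hs, hH, b, hb, hmb⟩
    · exact h
    · obtain ⟨a, ha, ha'⟩ := Set.not_subset.1 hnot
      refine ⟨a, fun r hr => ?_, ha'⟩
      have h12 : r ^ p ^ e * a ∈ maximalIdeal R ^ (p ^ e + j) := by
        rw [pow_add]
        exact Ideal.mul_mem_mul (Ideal.pow_mem_pow hr _) ha
      rw [hj] at h12
      exact h12
    · exact exists_elt (R := R) (p ^ e) hq hm
    · refine ⟨b, fun r hr => ?_, fun hmem => hb (hH b ?_ ⟨1, fun x hx => ?_⟩)⟩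
      · obtain ⟨k, hk⟩ := Nat.exists_eq_succ_of_ne_zero (by omega : p ^ e ≠ 0)
        rw [hk, Nat.succ_eq_add_one, pow_succ, mul_assoc, hmb r hr, mul_zero]
      · refine Ideal.pow_le_pow_right hs ((Ideal.span_le.2 ?_ : frobPow R (p ^ e) ≤ _) hmem)
        rintro _ ⟨r, hr, rfl⟩
        exact Ideal.pow_mem_pow hr _
      · rw [pow_one] at hx
        exact hmb x hx
  obtain ⟨F, hF⟩ := hn
  obtain ⟨u, v, huv⟩ := frob_retract p e a h1 h2
  obtain ⟨G⟩ := exists_minRes (R := R) (R ⧸ maximalIdeal R)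
  exact ⟨G, fun i hi => retract G F u v huv i (hF i hi)⟩

end Pool.Agent.Results.MP_2ee108_al.SummandCriterion
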